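import Pool.Agent.W188.MZ.Stm

/-!
# Project MZ: comparison of the continuous and the discrete moments (`StCmp`)
-/

set_option autoImplicit false

open Complex MeasureTheory Set Filter Topology

namespace Pool.Agent.W917.MZ.CMP

open Pool.Agent.W188.QS Pool.Agent.W188.GP Pool.Agent.W188.MZ

theorem zz_nonneg (t : ℝ) : 0 ≤ ZZ t := norm_nonneg _

theorem zz_cont : Continuous ZZ := by
  unfold ZZ
  refine Continuous.norm ?_
  rw [continuous_iff_continuousAt]
  intro t
  have h1 : cp t ≠ 1 := by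
    intro h
    have := congrArg Complex.re h
    simp [cp] at this
  have h2 : Continuous cp := by
    unfold cp
    fun_prop
  exact ContinuousAt.comp (f := cp) (g := riemannZeta)
    (differentiableAt_riemannZeta h1).continuousAt h2.continuousAt

theorem zzp_cont {p : ℝ} (hp : 0 < p) : Continuous fun t => ZZ t ^ p :=
  zz_cont.rpow_const fun _ => Or.inr hp.le

theorem zzp_nonneg (p t : ℝ) : 0 ≤ ZZ t ^ p := Real.rpow_nonneg (zz_nonneg t) p

theorem int_kernel {L x a b : ℝ} (hL : 0 < L) :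
    ∫ t in a..b, 1 / (1 + L * |x - t|) ^ 2 ≤ 2 / L := by
  set F : ℝ → ℝ := fun t => (t - x) / (1 + L * |x - t|) with hF
  have hden : ∀ t : ℝ, 0 < 1 + L * |x - t| := fun t => by positivity
  have hFc : Continuous F := by
    refine Continuous.div (by fun_prop) (by fun_prop) fun t => (hden t).ne'
  have hfc : Continuous fun t : ℝ => 1 / (1 + L * |x - t|) ^ 2 :=
    Continuous.div (by fun_prop) (by fun_prop) fun t => (pow_pos (hden t) 2).ne'
  have hd : ∀ t, t ≠ x → HasDerivAt F (1 / (1 + L * |x - t|) ^ 2) t := by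
    intro t ht
    rcases lt_or_gt_of_ne ht with h | h
    · have h0 := sub_pos.2 h
      have h2 : 0 < 1 + L * (x - t) := by positivity
      have h1 : HasDerivAt (fun t => (t - x) / (1 + L * (x - t)))
          (1 / (1 + L * (x - t)) ^ 2) t := by
        have h3 := ((hasDerivAt_id t).sub_const x).div
          ((((hasDerivAt_id t).const_sub x).const_mul L).const_add 1) h2.ne'
        refine HasDerivAt.congr_deriv h3 ?_
        simp only [id]
        field_simp
        ring
      rw [abs_of_pos h0]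
      refine h1.congr_of_eventuallyEq ?_
      filter_upwards [Iio_mem_nhds h] with s hs
      simp only [hF]
      rw [abs_of_pos (sub_pos.2 hs)]
    · have h0 := sub_pos.2 h
      have h2 : 0 < 1 + L * (t - x) := by positivity
      have h1 : HasDerivAt (fun t => (t - x) / (1 + L * (t - x)))
          (1 / (1 + L * (t - x)) ^ 2) t := by
        have h3 := ((hasDerivAt_id t).sub_const x).div
          ((((hasDerivAt_id t).sub_const x).const_mul L).const_add 1) h2.ne'
        refine HasDerivAt.congr_deriv h3 ?_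
        simp only [id]
        field_simp
        ring
      rw [abs_sub_comm, abs_of_pos h0]
      refine h1.congr_of_eventuallyEq ?_
      filter_upwards [Ioi_mem_nhds h] with s hs
      simp only [hF]
      rw [abs_sub_comm, abs_of_pos (sub_pos.2 hs)]
  have h1 : ∫ t in a..b, 1 / (1 + L * |x - t|) ^ 2 = F b - F a :=
    MeasureTheory.integral_eq_of_hasDerivAt_off_countable F _ (countable_singleton x)
      hFc.continuousOn (fun t ht => hd t ht.2) (hfc.intervalIntegrable _ _)
  have h2 : ∀ t, |F t| ≤ 1 / L := by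
    intro t
    simp only [hF]
    rw [abs_div, abs_of_pos (hden t), div_le_div_iff₀ (hden t) hL, abs_sub_comm t x]
    nlinarith [abs_nonneg (x - t)]
  rw [h1]
  have h3 := (abs_le.1 (h2 b)).2
  have h4 := (abs_le.1 (h2 a)).1
  have h5 : 2 / L = 1 / L + 1 / L := by ring
  linarith

theorem dd_per (p a b : ℝ) : Function.Periodic (fun γ => DD p γ a b) 1 := by
  intro γ
  unfold DD
  refine Finset.sum_nbij' (fun n => n + 1) (fun n => n - 1) ?_ ?_ (by simp) (by simp) ?_
  · intro n hn
    simp only [nd, Finset.mem_Ioc, ← sub_sub, Int.floor_sub_one] at hn ⊢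
    omega
  · intro n hn
    simp only [nd, Finset.mem_Ioc, ← sub_sub, Int.floor_sub_one] at hn ⊢
    omega
  · intro n _
    push_cast
    congr 3
    ring

theorem avg (h5 : StCo) {p : ℝ} (hp : 0 < p) {a b : ℝ} (ha : 100 ≤ a)
    (hab : a ≤ b) : IntervalIntegrable (fun γ => DD2 p γ a b) volume 0 1 ∧
      ∫ γ in (0 : ℝ)..1, DD2 p γ a b =
        2 * (1 / (2 * Real.pi) * ∫ t in a..b, ZZ t ^ p * lamE t) := by
  obtain ⟨hi, he⟩ := h5 (fun t => ZZ t ^ p) a b (zzp_cont hp) ha hab
  have hi' : IntervalIntegrable (fun γ => DD p γ a b) volume 0 1 := hi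
  have he' : ∫ γ in (0 : ℝ)..1, DD p γ a b =
      1 / (2 * Real.pi) * ∫ t in a..b, ZZ t ^ p * lamE t := he
  have hper := dd_per p a b
  have hi2 : IntervalIntegrable (fun γ => DD p (γ + 1 / 2) a b) volume 0 1 := by
    have h1 := hper.intervalIntegrable₀ one_ne_zero hi' (0 + 1 / 2) (1 + 1 / 2)
    have h2 := h1.comp_add_right (1 / 2)
    simpa using h2
  have he2 : ∫ γ in (0 : ℝ)..1, DD p (γ + 1 / 2) a b =
      1 / (2 * Real.pi) * ∫ t in a..b, ZZ t ^ p * lamE t := by
    rw [← he', intervalIntegral.integral_comp_add_right (fun γ => DD p γ a b) (1 / 2)]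
    have h1 := hper.intervalIntegral_add_eq (1 / 2) 0
    rw [zero_add] at h1
    rw [← h1]
    congr 1 <;> ring
  refine ⟨hi'.add hi2, ?_⟩
  unfold DD2
  rw [intervalIntegral.integral_add hi' hi2, he', he2]
  ring

theorem sg_nonneg {m : ℕ} {γ T t : ℝ} (hT : 0 ≤ Real.log T) : 0 ≤ Sg m γ T t :=
  Finset.sum_nonneg fun n _ => div_nonneg (zz_nonneg _) (by positivity)

theorem s2_nonneg {m : ℕ} {γ T t : ℝ} (hT : 0 ≤ Real.log T) : 0 ≤ S2 m γ T t :=
  add_nonneg (sg_nonneg hT) (sg_nonneg hT)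

theorem wg_nonneg {p γ T a b t : ℝ} (hT : 0 ≤ Real.log T) : 0 ≤ Wg p γ T a b t :=
  Finset.sum_nonneg fun n _ => div_nonneg (zzp_nonneg _ _) (by positivity)

theorem w2_nonneg {p γ T a b t : ℝ} (hT : 0 ≤ Real.log T) : 0 ≤ W2 p γ T a b t :=
  add_nonneg (wg_nonneg hT) (wg_nonneg hT)

theorem dd_nonneg (p γ a b : ℝ) : 0 ≤ DD p γ a b := Finset.sum_nonneg fun n _ => zzp_nonneg _ _

theorem dd2_nonneg (p γ a b : ℝ) : 0 ≤ DD2 p γ a b := add_nonneg (dd_nonneg _ _ _ _) (dd_nonneg _ _ _ _)

theorem term_cont {L c x : ℝ} (hL : 0 < L) : Continuous fun t : ℝ => c / (1 + L * |x - t|) ^ 2 :=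
  Continuous.div (by fun_prop) (by fun_prop) fun t => by positivity

theorem wg_cont {p γ T a b : ℝ} (hL : 0 < Real.log T) : Continuous fun t => Wg p γ T a b t := by
  unfold Wg
  exact continuous_finsetSum _ fun _ _ => term_cont hL

theorem w2_cont {p γ T a b : ℝ} (hL : 0 < Real.log T) : Continuous fun t => W2 p γ T a b t :=
  (wg_cont hL).add (wg_cont hL)

theorem wg_int {p γ T a b : ℝ} (hL : 0 < Real.log T) :
    ∫ t in a..b, Wg p γ T a b t ≤
      2 / Real.log T * DD p γ (a - 2 * Real.log T) (b + 2 * Real.log T) := by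
  unfold Wg DD
  rw [intervalIntegral.integral_finsetSum fun n _ => (term_cont hL).intervalIntegrable _ _,
    Finset.mul_sum]
  refine Finset.sum_le_sum fun n _ => ?_
  have h1 : ∀ t : ℝ, ZZ (tau (n + γ)) ^ p / (1 + Real.log T * |tau (n + γ) - t|) ^ 2 =
      ZZ (tau (n + γ)) ^ p * (1 / (1 + Real.log T * |tau (n + γ) - t|) ^ 2) := fun t => by ring
  simp only [h1]
  rw [intervalIntegral.integral_const_mul, mul_comm (2 / Real.log T)]
  exact mul_le_mul_of_nonneg_left (int_kernel hL) (zzp_nonneg _ _)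

theorem w2_int {p γ T a b : ℝ} (hL : 0 < Real.log T) :
    Real.log T * ∫ t in a..b, W2 p γ T a b t ≤
      2 * DD2 p γ (a - 2 * Real.log T) (b + 2 * Real.log T) := by
  unfold W2 DD2
  rw [intervalIntegral.integral_add ((wg_cont hL).intervalIntegrable _ _)
    ((wg_cont hL).intervalIntegrable _ _)]
  have h1 := wg_int (p := p) (γ := γ) (a := a) (b := b) hL
  have h2 := wg_int (p := p) (γ := γ + 1 / 2) (a := a) (b := b) hL
  have h3 : ∀ x : ℝ, Real.log T * (2 / Real.log T * x) = 2 * x := fun x => by field_simp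
  calc _ ≤ Real.log T * (2 / Real.log T * DD p γ (a - 2 * Real.log T) (b + 2 * Real.log T) +
        2 / Real.log T * DD p (γ + 1 / 2) (a - 2 * Real.log T) (b + 2 * Real.log T)) :=
        mul_le_mul_of_nonneg_left (add_le_add h1 h2) hL.le
    _ = _ := by rw [mul_add, h3, h3, mul_add]

theorem add_rpow {p x y : ℝ} (hp : 0 < p) (hx : 0 ≤ x) (hy : 0 ≤ y) :
    (x + y) ^ p ≤ 2 ^ p * (x ^ p + y ^ p) := by
  have h1 : x + y ≤ 2 * max x y := by
    have := le_max_left x y
    have := le_max_right x y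
    linarith
  have h2 : 0 ≤ max x y := hx.trans (le_max_left _ _)
  refine (Real.rpow_le_rpow (add_nonneg hx hy) h1 hp.le).trans ?_
  rw [Real.mul_rpow (by norm_num) h2]
  refine mul_le_mul_of_nonneg_left ?_ (by positivity)
  rcases max_cases x y with ⟨h, _⟩ | ⟨h, _⟩
  · rw [h]
    exact le_add_of_nonneg_right (Real.rpow_nonneg hy p)
  · rw [h]
    exact le_add_of_nonneg_left (Real.rpow_nonneg hx p)

/-- the pointwise bound -/
theorem pw (h1 : StLocC) (h2 : StPow) {p : ℝ} (hp : 0 < p) : ∃ K T₀ : ℝ, 0 < K ∧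
    ∀ T γ a b t : ℝ, T₀ ≤ T → T / 2 ≤ a → a ≤ t → t ≤ b → b ≤ 16 * T →
      ZZ t ^ p ≤ K * (W2 p γ T a b t + T ^ (-(p / 2))) := by
  obtain ⟨m0, hm0⟩ := exists_nat_ge (2 / p)
  set m : ℕ := m0 + 2 with hm
  have hpm : 2 ≤ p * (m : ℝ) := by
    have h3 : 2 ≤ p * (m0 : ℝ) := by
      rw [div_le_iff₀ hp] at hm0
      linarith
    rw [hm]
    push_cast
    nlinarith
  obtain ⟨C1, T1, hC1, H1⟩ := h1 m (by omega)
  obtain ⟨C2, T2, hC2, H2⟩ := h2 p m hp (by omega) hpm
  refine ⟨2 ^ p * (C1 ^ p * C2 + 1), max (max T1 T2) 3, by positivity, ?_⟩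
  intro T γ a b t hT ha hat htb hb
  have hT1 : T1 ≤ T := ((le_max_left _ _).trans (le_max_left _ _)).trans hT
  have hT2 : T2 ≤ T := ((le_max_right _ _).trans (le_max_left _ _)).trans hT
  have hT3 : (3 : ℝ) ≤ T := (le_max_right _ _).trans hT
  have hL : 0 < Real.log T := Real.log_pos (by linarith)
  have h3 : ZZ t ≤ C1 * S2 m γ T t + T ^ (-(1 / 2 : ℝ)) := by
    refine H1 T γ t hT1 (by linarith) (by linarith) (cp t) ?_
    rw [sub_self, norm_zero]
    positivity
  have h4 : S2 m γ T t ^ p ≤ C2 * W2 p γ T a b t :=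
    H2 T γ a b t hT2 (by linarith) hat htb (by linarith)
  have h5 : 0 ≤ S2 m γ T t := s2_nonneg hL.le
  have h6 : 0 ≤ W2 p γ T a b t := w2_nonneg hL.le
  have h7 : (0 : ℝ) ≤ T ^ (-(1 / 2 : ℝ)) := by positivity
  have h8 : (T ^ (-(1 / 2 : ℝ))) ^ p = T ^ (-(p / 2)) := by
    rw [← Real.rpow_mul (by linarith)]
    congr 1
    ring
  have h9 : (0 : ℝ) ≤ T ^ (-(p / 2)) := by positivity
  calc ZZ t ^ p ≤ (C1 * S2 m γ T t + T ^ (-(1 / 2 : ℝ))) ^ p :=
        Real.rpow_le_rpow (zz_nonneg t) h3 hp.le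
    _ ≤ 2 ^ p * ((C1 * S2 m γ T t) ^ p + (T ^ (-(1 / 2 : ℝ))) ^ p) :=
        add_rpow hp (by positivity) h7
    _ = 2 ^ p * (C1 ^ p * S2 m γ T t ^ p + T ^ (-(p / 2))) := by
        rw [Real.mul_rpow hC1.le h5, h8]
    _ ≤ 2 ^ p * (C1 ^ p * (C2 * W2 p γ T a b t) + T ^ (-(p / 2))) := by gcongr
    _ ≤ _ := by
        have h10 : (0 : ℝ) < 2 ^ p := by positivity
        have h11 : (0 : ℝ) < C1 ^ p := by positivity
        have h12 : 0 ≤ 2 ^ p * (W2 p γ T a b t + C1 ^ p * C2 * T ^ (-(p / 2))) := by positivity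
        nlinarith

theorem vv_sub (h4 : StTau) {T a b : ℝ} (hT : 17 ≤ T) (ha : 100 ≤ a) (hab : a ≤ b)
    (hb : b ≤ 17 * T) : vv b - vv a ≤ Real.log T * (b - a) := by
  obtain ⟨_, hc, _, _, hd, _, _, _, _, _, _, hl, _⟩ := h4
  refine Convex.image_sub_le_mul_sub_of_deriv_le (convex_Icc a b) hc.continuousOn
    (fun x _ => (hd x).differentiableAt.differentiableWithinAt) (fun x hx => ?_) a
    (left_mem_Icc.2 hab) b (right_mem_Icc.2 hab) hab
  rw [interior_Icc] at hx
  rw [(hd x).deriv]
  have h1 : lamE x ≤ 2 * Real.log T := by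
    refine (hl x (ha.trans hx.1.le)).2.trans ?_
    have h2 : x ≤ T ^ 2 := by nlinarith [hx.2]
    calc Real.log x ≤ Real.log (T ^ 2) := Real.log_le_log (by linarith [hx.1]) h2
      _ = 2 * Real.log T := by
        rw [Real.log_pow]
        norm_num
  have h3 : (1 : ℝ) ≤ Real.pi := by linarith [Real.pi_gt_three]
  have h4 : 0 ≤ Real.log T := Real.log_nonneg (by linarith)
  rw [div_le_iff₀ (by positivity)]
  nlinarith [mul_le_mul_of_nonneg_left h3 h4]

theorem card_nd (h4 : StTau) {T γ a b : ℝ} (hT : 17 ≤ T) (ha : 100 ≤ a) (hab : a ≤ b)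
    (hb : b ≤ 17 * T) : ((nd γ a b).card : ℝ) ≤ Real.log T * (b - a) + 1 := by
  have h1 := vv_sub h4 hT ha hab hb
  have h2 : vv a ≤ vv b := h4.1.monotone hab
  unfold nd
  rw [Int.card_Ioc]
  have h3 : ⌊vv a - γ⌋ ≤ ⌊vv b - γ⌋ := Int.floor_le_floor (by linarith)
  have h4 : (((⌊vv b - γ⌋ - ⌊vv a - γ⌋).toNat : ℕ) : ℝ) =
      ((⌊vv b - γ⌋ - ⌊vv a - γ⌋ : ℤ) : ℝ) := by
    rw [← Int.cast_natCast, Int.toNat_of_nonneg (by omega)]
  rw [h4]
  push_cast
  have h5 := Int.floor_le (vv b - γ)
  have h6 := Int.lt_floor_add_one (vv a - γ)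
  linarith

theorem lam_int (h4 : StTau) {p : ℝ} (hp : 0 < p) {T a b : ℝ} (hT : 17 ≤ T) (ha : 100 ≤ a)
    (hab : a ≤ b) (hb : b ≤ 17 * T) :
    2 * (1 / (2 * Real.pi) * ∫ t in a..b, ZZ t ^ p * lamE t) ≤
      Real.log T * ∫ t in a..b, ZZ t ^ p := by
  obtain ⟨_, _, hc, _, _, _, _, _, _, _, _, hl, _⟩ := h4
  have h1 : ∫ t in a..b, ZZ t ^ p * lamE t ≤ ∫ t in a..b, 2 * Real.log T * ZZ t ^ p := by
    refine intervalIntegral.integral_mono_on hab
      (((zzp_cont hp).mul hc).intervalIntegrable _ _)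
      ((continuous_const.mul (zzp_cont hp)).intervalIntegrable _ _) fun x hx => ?_
    have h1 : lamE x ≤ 2 * Real.log T := by
      refine (hl x (ha.trans hx.1)).2.trans ?_
      have h2 : x ≤ T ^ 2 := by nlinarith [hx.2]
      calc Real.log x ≤ Real.log (T ^ 2) := Real.log_le_log (by linarith [hx.1]) h2
        _ = 2 * Real.log T := by
          rw [Real.log_pow]
          norm_num
    rw [mul_comm]
    exact mul_le_mul_of_nonneg_right h1 (zzp_nonneg _ _)
  rw [intervalIntegral.integral_const_mul] at h1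
  have h3 : 2 ≤ Real.pi := by linarith [Real.pi_gt_three]
  have h4 : 0 ≤ Real.log T := Real.log_nonneg (by linarith)
  have h5 : 0 ≤ ∫ t in a..b, ZZ t ^ p :=
    intervalIntegral.integral_nonneg hab fun x _ => zzp_nonneg _ _
  have h6 : 2 * (1 / (2 * Real.pi) * ∫ t in a..b, ZZ t ^ p * lamE t) =
      (∫ t in a..b, ZZ t ^ p * lamE t) / Real.pi := by
    field_simp
  rw [h6, div_le_iff₀ (by positivity)]
  have h7 := mul_nonneg h4 h5
  nlinarith

theorem mz_cmp (h1 : StLocC) (h2 : StPow) (h3 : StSpc) (h4 : StTau) (h5 : StCo) : StCmp := by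
  intro p hp
  obtain ⟨K, T1, hK, hpw⟩ := pw h1 h2 hp
  obtain ⟨C3, T3, hC3, hspc⟩ := h3
  have hev : ∀ᶠ T : ℝ in atTop, T1 ≤ T ∧ T3 ≤ T ∧ 400 ≤ T ∧ 8 * Real.log T ≤ T ∧
      Real.log T ≤ T ^ (p / 6) := by
    have e1 := (isLittleO_log_rpow_atTop (by positivity : 0 < p / 6)).bound one_pos
    have e2 := Real.isLittleO_log_id_atTop.bound (by norm_num : (0 : ℝ) < 1 / 8)
    filter_upwards [eventually_ge_atTop T1, eventually_ge_atTop T3, eventually_ge_atTop 400, e1, e2]
      with T a1 a2 a3 a4 a5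
    have hL : 0 ≤ Real.log T := Real.log_nonneg (by linarith)
    refine ⟨a1, a2, a3, ?_, ?_⟩
    · rw [Real.norm_of_nonneg hL, id, Real.norm_of_nonneg (by linarith)] at a5
      linarith
    · rw [Real.norm_of_nonneg hL, one_mul, Real.norm_of_nonneg (by positivity)] at a4
      exact a4
  obtain ⟨T₀, hT₀⟩ := eventually_atTop.1 hev
  refine ⟨K * (2 * C3 + 3), T₀, by positivity, ?_⟩
  intro T γ a b hT ha hab hb
  obtain ⟨hT1, hT3, hT400, hlog8, hlogp⟩ := hT₀ T hT
  have hL1 : 1 ≤ Real.log T := by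
    rw [Real.le_log_iff_exp_le (by linarith)]
    have := Real.exp_one_lt_d9
    linarith
  have hL : 0 < Real.log T := by linarith
  have hTp : (0 : ℝ) < T ^ (-(p / 3)) := by positivity
  -- small error
  have herr1 : Real.log T * T ^ (-(p / 2)) ≤ T ^ (-(p / 3)) := by
    calc Real.log T * T ^ (-(p / 2)) ≤ T ^ (p / 6) * T ^ (-(p / 2)) := by gcongr
      _ = T ^ (-(p / 3)) := by
        rw [← Real.rpow_add (by linarith)]
        congr 1
        ring
  have herr2 : T ^ (-(p / 2)) ≤ T ^ (-(p / 3)) :=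
    Real.rpow_le_rpow_of_exponent_le (by linarith) (by linarith)
  have hab0 : 0 ≤ b - a := by linarith
  have ha' : 100 ≤ a - 2 * Real.log T := by linarith
  have hb' : b + 2 * Real.log T ≤ 17 * T := by linarith
  have hab' : a - 2 * Real.log T ≤ b + 2 * Real.log T := by linarith
  constructor
  · -- first part
    have e1 : ∫ t in a..b, ZZ t ^ p ≤ ∫ t in a..b, K * (W2 p γ T a b t + T ^ (-(p / 2))) := by
      refine intervalIntegral.integral_mono_on hab ((zzp_cont hp).intervalIntegrable _ _)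
        ((continuous_const.mul ((w2_cont hL).add continuous_const)).intervalIntegrable _ _)
        fun t ht => hpw T γ a b t hT1 ha ht.1 ht.2 hb
    rw [intervalIntegral.integral_const_mul, intervalIntegral.integral_add
      ((w2_cont hL).intervalIntegrable _ _) (continuous_const.intervalIntegrable _ _),
      intervalIntegral.integral_const, smul_eq_mul] at e1
    have e2 := w2_int (p := p) (γ := γ) (a := a) (b := b) hL
    set D := DD2 p γ (a - 2 * Real.log T) (b + 2 * Real.log T) with hD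
    have hD0 : 0 ≤ D := dd2_nonneg _ _ _ _
    set I := ∫ t in a..b, W2 p γ T a b t with hI
    calc Real.log T * ∫ t in a..b, ZZ t ^ p
        ≤ Real.log T * (K * (I + (b - a) * T ^ (-(p / 2)))) := by gcongr
      _ = K * (Real.log T * I + (b - a) * (Real.log T * T ^ (-(p / 2)))) := by ring
      _ ≤ K * (2 * D + (b - a) * T ^ (-(p / 3))) := by gcongr
      _ ≤ K * ((2 * C3 + 3) * D + (2 * C3 + 3) * ((b - a + 1) * T ^ (-(p / 3)))) := by
        refine mul_le_mul_of_nonneg_left (add_le_add ?_ ?_) hK.le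
        · exact mul_le_mul_of_nonneg_right (by linarith) hD0
        · have h6 : (b - a) * T ^ (-(p / 3)) ≤ (b - a + 1) * T ^ (-(p / 3)) :=
            mul_le_mul_of_nonneg_right (by linarith) hTp.le
          have h7 : 0 ≤ (b - a + 1) * T ^ (-(p / 3)) := by positivity
          have h8 : 0 ≤ (2 * C3 + 2) * ((b - a + 1) * T ^ (-(p / 3))) := by positivity
          linarith
      _ = _ := by ring
  · -- second part
    have key : ∀ γ' : ℝ, DD p γ a b ≤
        K * C3 * DD2 p γ' (a - 2 * Real.log T) (b + 2 * Real.log T) +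
          2 * (K * ((b - a + 1) * T ^ (-(p / 3)))) := by
      intro γ'
      have hmem : ∀ n ∈ nd γ a b, a ≤ tau (n + γ) ∧ tau (n + γ) ≤ b := by
        intro n hn
        have := (h4.2.2.2.2.2.2.2.2.2.2.2.2 γ a b n).1 hn
        exact ⟨this.1.le, this.2⟩
      have hsum : ∀ δ : ℝ, ∑ n ∈ nd γ a b, Wg p δ T a b (tau (n + γ)) ≤
          C3 * DD p δ (a - 2 * Real.log T) (b + 2 * Real.log T) := by
        intro δ
        unfold Wg DD
        rw [Finset.sum_comm, Finset.mul_sum]
        refine Finset.sum_le_sum fun n' _ => ?_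
        have e1 : ∀ n : ℤ, ZZ (tau (n' + δ)) ^ p /
            (1 + Real.log T * |tau (n' + δ) - tau (n + γ)|) ^ 2 =
            ZZ (tau (n' + δ)) ^ p *
              (1 / (1 + Real.log T * |tau (n + γ) - tau (n' + δ)|) ^ 2) := by
          intro n
          rw [abs_sub_comm]
          ring
        simp only [e1]
        rw [← Finset.mul_sum, mul_comm C3]
        exact mul_le_mul_of_nonneg_left
          (hspc T γ a b (tau (n' + δ)) hT3 (by linarith) (by linarith)) (zzp_nonneg _ _)
      have hcard := card_nd h4 (T := T) (γ := γ) (a := a) (b := b) (by linarith) (by linarith) hab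
        (by linarith)
      have hT2 : (0 : ℝ) < T ^ (-(p / 2)) := by positivity
      calc DD p γ a b ≤ ∑ n ∈ nd γ a b, K * (W2 p γ' T a b (tau (n + γ)) + T ^ (-(p / 2))) := by
            unfold DD
            exact Finset.sum_le_sum fun n hn =>
              hpw T γ' a b _ hT1 ha (hmem n hn).1 (hmem n hn).2 hb
        _ = K * ((∑ n ∈ nd γ a b, Wg p γ' T a b (tau (n + γ)) +
              ∑ n ∈ nd γ a b, Wg p (γ' + 1 / 2) T a b (tau (n + γ))) +
              (nd γ a b).card * T ^ (-(p / 2))) := by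
            unfold W2
            rw [← Finset.mul_sum, Finset.sum_add_distrib, Finset.sum_add_distrib,
              Finset.sum_const, nsmul_eq_mul]
        _ ≤ K * ((C3 * DD p γ' (a - 2 * Real.log T) (b + 2 * Real.log T) +
              C3 * DD p (γ' + 1 / 2) (a - 2 * Real.log T) (b + 2 * Real.log T)) +
              (Real.log T * (b - a) + 1) * T ^ (-(p / 2))) := by
            gcongr
            · exact hsum γ'
            · exact hsum (γ' + 1 / 2)
        _ = K * C3 * DD2 p γ' (a - 2 * Real.log T) (b + 2 * Real.log T) +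
              K * ((b - a) * (Real.log T * T ^ (-(p / 2))) + T ^ (-(p / 2))) := by
            unfold DD2
            ring
        _ ≤ K * C3 * DD2 p γ' (a - 2 * Real.log T) (b + 2 * Real.log T) +
              K * ((b - a) * T ^ (-(p / 3)) + T ^ (-(p / 3))) := by gcongr
        _ ≤ _ := by
            have h6 : 0 ≤ K * ((b - a + 1) * T ^ (-(p / 3))) := by positivity
            nlinarith
    obtain ⟨hi, he⟩ := avg h5 hp ha' hab'
    have hle := lam_int h4 hp (by linarith : 17 ≤ T) ha' hab' hb'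
    have hint : ∫ γ' in (0 : ℝ)..1, DD p γ a b ≤ ∫ γ' in (0 : ℝ)..1,
        (K * C3 * DD2 p γ' (a - 2 * Real.log T) (b + 2 * Real.log T) +
          2 * (K * ((b - a + 1) * T ^ (-(p / 3))))) := by
      refine intervalIntegral.integral_mono_on zero_le_one (by simp)
        ((hi.const_mul _).add (by simp)) fun γ' _ => key γ'
    rw [intervalIntegral.integral_const, intervalIntegral.integral_add (hi.const_mul _) (by simp),
      intervalIntegral.integral_const_mul, intervalIntegral.integral_const, he] at hint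
    simp only [sub_zero, one_smul] at hint
    set I := ∫ t in (a - 2 * Real.log T)..(b + 2 * Real.log T), ZZ t ^ p with hI
    have hI0 : 0 ≤ I := intervalIntegral.integral_nonneg hab' fun x _ => zzp_nonneg _ _
    set E := (b - a + 1) * T ^ (-(p / 3)) with hE
    have hE0 : 0 ≤ E := by positivity
    calc DD p γ a b ≤ K * C3 * (Real.log T * I) + 2 * (K * E) := by
          refine hint.trans ?_
          gcongr
      _ ≤ K * (2 * C3 + 3) * (Real.log T * I + E) := by
          have h6 : 0 ≤ K * C3 * (Real.log T * I) := by positivity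
          have h7 : 0 ≤ K * (Real.log T * I) := by positivity
          have h8 : 0 ≤ K * E := by positivity
          have h9 : 0 ≤ K * C3 * E := by positivity
          nlinarith

end Pool.Agent.W917.MZ.CMP
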