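import Pool.Agent.W46.MZ.Stm
import Pool.Agent.H447R2.MZ.Tup

/-!
# The crude bound for the dimensions of the spaces of multiple zeta values
-/

set_option autoImplicit false

namespace Pool.Agent.W917.MZ

open Finset Pool.Agent.W46.MZ
open Pool.Agent.H447R2.MZ (Zs Zs_eq val Adm)

theorem Z_le (n : ℕ) :
    Z n ≤ Submodule.span ℚ (Set.range (fun c : Composition n => val c.blocks)) := by
  have h : Z n = Zs n := rfl
  rw [h, Zs_eq]
  apply Submodule.span_mono
  rintro x ⟨s, hs, hsum, rfl⟩
  exact ⟨⟨s, fun {i} hi => Nat.lt_of_lt_of_le Nat.zero_lt_one (hs.1 i hi), hsum⟩, rfl⟩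

theorem fin_span (n : ℕ) : Module.Finite ℚ
    (Submodule.span ℚ (Set.range (fun c : Composition n => val c.blocks))) :=
  FiniteDimensional.span_of_finite ℚ (Set.finite_range _)

theorem Z_fin (n : ℕ) : Module.Finite ℚ (Z n) := by
  haveI := fin_span n
  exact Submodule.finiteDimensional_of_le (Z_le n)

theorem Z_finrank (n : ℕ) : Module.finrank ℚ (Z n) ≤ 2 ^ (n - 1) := by
  haveI := fin_span n
  refine (Submodule.finrank_mono (Z_le n)).trans ?_
  have h := finrank_range_le_card (R := ℚ) (fun c : Composition n => val c.blocks)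
  rw [composition_card] at h
  exact h

theorem BND : S_BND := by
  refine ⟨Z_fin, fun p => ?_⟩
  induction p with
  | zero =>
    have := Z_finrank 0
    simpa [Ddim] using this
  | succ p ih =>
    unfold Ddim at ih ⊢
    rw [Finset.sum_range_succ]
    have := Z_finrank (p + 1)
    rw [Nat.add_sub_cancel] at this
    rw [pow_succ]
    omega

end Pool.Agent.W917.MZ
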